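import Pool.Agent.helper96.LK.SpecM

/-!
# Project lk: module LOW (derivatives of the map `(x^a y - 1, x y^a - 1)`)
-/

open PowerSeries Filter

noncomputable section

namespace Pool.Agent.LK

open Pool.Agent.helper59.LC Pool.Agent.helper59.LD

theorem LOW_pow {R : Type*} [CommRing R] (s : R) (a : ℕ) :
    ∃ Q : R, (1 + s) ^ a = 1 + a * s + s ^ 2 * Q := by
  induction a with
  | zero => exact ⟨0, by simp⟩
  | succ a ih =>
    obtain ⟨Q, hQ⟩ := ih
    refine ⟨a + Q * (1 + s), ?_⟩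
    rw [pow_succ, hQ]
    push_cast
    ring

section
variable {A : Type} [CommRing A] [Algebra ℚ A]

/-- the constant `1 / (a² - 1)` -/
def LOW_c (A : Type) [CommRing A] [Algebra ℚ A] (a : ℕ) : MvPolynomial (Fin 2) A :=
  MvPolynomial.C (qc A (1 / ((a : ℚ) ^ 2 - 1)))

theorem LOW_cm (a : ℕ) (ha : 2 ≤ a) :
    LOW_c A a * (MvPolynomial.C (a : A) ^ 2 - 1) = 1 := by
  have h1 : qc A (1 / ((a : ℚ) ^ 2 - 1)) * ((a : A) ^ 2 - 1) = 1 := by
    have h2 : ((a : A) ^ 2 - 1) = qc A ((a : ℚ) ^ 2 - 1) := by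
      simp [qc]
    rw [h2, ← qc_mul]
    have h3 : ((a : ℚ) ^ 2 - 1) ≠ 0 := by
      have : (2 : ℚ) ≤ a := by exact_mod_cast ha
      nlinarith
    rw [one_div_mul_cancel h3, qc_one]
  have h4 : LOW_c A a * (MvPolynomial.C (a : A) ^ 2 - 1) =
      MvPolynomial.C (qc A (1 / ((a : ℚ) ^ 2 - 1)) * ((a : A) ^ 2 - 1)) := by
    rw [LOW_c, map_mul, map_sub, map_pow, map_one]
  rw [h4, h1, map_one]

theorem LOW_mul4 (c d e f : MvPolynomial (Fin 2) A) (i j k l : Fin 2) :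
    Low ((c * MvPolynomial.X i + d * MvPolynomial.X j) *
      (e * MvPolynomial.X k + f * MvPolynomial.X l)) := by
  have h : (c * MvPolynomial.X i + d * MvPolynomial.X j) *
      (e * MvPolynomial.X k + f * MvPolynomial.X l) =
      (c * e) * (MvPolynomial.X i * MvPolynomial.X k) +
      (c * f) * (MvPolynomial.X i * MvPolynomial.X l) +
      ((d * e) * (MvPolynomial.X j * MvPolynomial.X k) +
      (d * f) * (MvPolynomial.X j * MvPolynomial.X l)) := by ring
  rw [h]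
  exact (((low_XX _ _).mul_left _).add ((low_XX _ _).mul_left _)).add
    (((low_XX _ _).mul_left _).add ((low_XX _ _).mul_left _))

theorem LOW_x (a : ℕ) : xP A a = 1 + (LOW_c A a * MvPolynomial.C (a : A) * MvPolynomial.X 0 +
    (-LOW_c A a) * MvPolynomial.X 1) := by
  rw [xP, LOW_c]
  ring

theorem LOW_y (a : ℕ) : yP A a = 1 + (LOW_c A a * MvPolynomial.C (a : A) * MvPolynomial.X 1 +
    (-LOW_c A a) * MvPolynomial.X 0) := by
  rw [yP, LOW_c]
  ring

theorem LOW_nat (a : ℕ) : (a : MvPolynomial (Fin 2) A) = MvPolynomial.C (a : A) := by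
  simp

theorem LOW_low0 (a : ℕ) (ha : 2 ≤ a) : Low (xP A a ^ a * yP A a - 1 - MvPolynomial.X 0) := by
  have hc := LOW_cm (A := A) a ha
  rw [LOW_x, LOW_y]
  set s : MvPolynomial (Fin 2) A := LOW_c A a * MvPolynomial.C (a : A) * MvPolynomial.X 0 +
    (-LOW_c A a) * MvPolynomial.X 1 with hs
  set t : MvPolynomial (Fin 2) A := LOW_c A a * MvPolynomial.C (a : A) * MvPolynomial.X 1 +
    (-LOW_c A a) * MvPolynomial.X 0 with ht
  obtain ⟨Q, hQ⟩ := LOW_pow s a
  have hX : (MvPolynomial.X 0 : MvPolynomial (Fin 2) A) = MvPolynomial.C (a : A) * s + t := by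
    rw [hs, ht]
    linear_combination (-(MvPolynomial.X 0 : MvPolynomial (Fin 2) A)) * hc
  have h1 : (1 + s) ^ a * (1 + t) - 1 - MvPolynomial.X 0 =
      MvPolynomial.C (a : A) * (s * t) + (Q * (1 + t)) * (s * s) := by
    rw [hX, hQ, LOW_nat]
    ring
  rw [h1]
  exact ((LOW_mul4 _ _ _ _ _ _ _ _).mul_left _).add ((LOW_mul4 _ _ _ _ _ _ _ _).mul_left _)

theorem LOW_low1 (a : ℕ) (ha : 2 ≤ a) : Low (xP A a * yP A a ^ a - 1 - MvPolynomial.X 1) := by
  have hc := LOW_cm (A := A) a ha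
  rw [LOW_x, LOW_y]
  set s : MvPolynomial (Fin 2) A := LOW_c A a * MvPolynomial.C (a : A) * MvPolynomial.X 0 +
    (-LOW_c A a) * MvPolynomial.X 1 with hs
  set t : MvPolynomial (Fin 2) A := LOW_c A a * MvPolynomial.C (a : A) * MvPolynomial.X 1 +
    (-LOW_c A a) * MvPolynomial.X 0 with ht
  obtain ⟨Q, hQ⟩ := LOW_pow t a
  have hX : (MvPolynomial.X 1 : MvPolynomial (Fin 2) A) = MvPolynomial.C (a : A) * t + s := by
    rw [hs, ht]
    linear_combination (-(MvPolynomial.X 1 : MvPolynomial (Fin 2) A)) * hc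
  have h1 : (1 + s) * (1 + t) ^ a - 1 - MvPolynomial.X 1 =
      MvPolynomial.C (a : A) * (s * t) + (Q * (1 + s)) * (t * t) := by
    rw [hX, hQ, LOW_nat]
    ring
  rw [h1]
  exact ((LOW_mul4 _ _ _ _ _ _ _ _).mul_left _).add ((LOW_mul4 _ _ _ _ _ _ _ _).mul_left _)

theorem LOW_dx0 (a : ℕ) : MvPolynomial.pderiv 0 (xP A a) =
    LOW_c A a * MvPolynomial.C (a : A) := by
  rw [xP, LOW_c, map_add, Derivation.map_one_eq_zero, MvPolynomial.pderiv_C_mul, map_sub,
    MvPolynomial.pderiv_C_mul, MvPolynomial.pderiv_X_self,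
    MvPolynomial.pderiv_X_of_ne (by decide)]
  ring

theorem LOW_dx1 (a : ℕ) : MvPolynomial.pderiv 1 (xP A a) = -LOW_c A a := by
  rw [xP, LOW_c, map_add, Derivation.map_one_eq_zero, MvPolynomial.pderiv_C_mul, map_sub,
    MvPolynomial.pderiv_C_mul, MvPolynomial.pderiv_X_self,
    MvPolynomial.pderiv_X_of_ne (by decide)]
  ring

theorem LOW_dy0 (a : ℕ) : MvPolynomial.pderiv 0 (yP A a) = -LOW_c A a := by
  rw [yP, LOW_c, map_add, Derivation.map_one_eq_zero, MvPolynomial.pderiv_C_mul, map_sub,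
    MvPolynomial.pderiv_C_mul, MvPolynomial.pderiv_X_self,
    MvPolynomial.pderiv_X_of_ne (by decide)]
  ring

theorem LOW_dy1 (a : ℕ) : MvPolynomial.pderiv 1 (yP A a) =
    LOW_c A a * MvPolynomial.C (a : A) := by
  rw [yP, LOW_c, map_add, Derivation.map_one_eq_zero, MvPolynomial.pderiv_C_mul, map_sub,
    MvPolynomial.pderiv_C_mul, MvPolynomial.pderiv_X_self,
    MvPolynomial.pderiv_X_of_ne (by decide)]
  ring

theorem LOW_P0 (a : ℕ) : PP (pT A a) 0 = xP A a ^ a * yP A a - 1 := by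
  rw [PP, pT, if_pos rfl]
  ring

theorem LOW_P1 (a : ℕ) : PP (pT A a) 1 = xP A a * yP A a ^ a - 1 := by
  rw [PP, pT, if_neg (by decide)]
  ring

theorem LOW_dP0 (a : ℕ) (i : Fin 2) : MvPolynomial.pderiv i (PP (pT A a) 0) =
    MvPolynomial.C (a : A) * xP A a ^ (a - 1) * MvPolynomial.pderiv i (xP A a) * yP A a +
      xP A a ^ a * MvPolynomial.pderiv i (yP A a) := by
  rw [LOW_P0, map_sub, Derivation.map_one_eq_zero, Derivation.leibniz, Derivation.leibniz_pow,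
    ← LOW_nat]
  simp only [smul_eq_mul, nsmul_eq_mul]
  ring

theorem LOW_dP1 (a : ℕ) (i : Fin 2) : MvPolynomial.pderiv i (PP (pT A a) 1) =
    MvPolynomial.C (a : A) * yP A a ^ (a - 1) * MvPolynomial.pderiv i (yP A a) * xP A a +
      yP A a ^ a * MvPolynomial.pderiv i (xP A a) := by
  rw [LOW_P1, map_sub, Derivation.map_one_eq_zero, Derivation.leibniz, Derivation.leibniz_pow,
    ← LOW_nat]
  simp only [smul_eq_mul, nsmul_eq_mul]
  ring

theorem LOW_four (a : ℕ) (ha : 2 ≤ a) :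
    MvPolynomial.pderiv 0 (PP (pT A a) 0) = LOW_c A a *
      (xP A a ^ (a - 1) * (MvPolynomial.C ((a : A) ^ 2) * yP A a - xP A a)) ∧
    MvPolynomial.pderiv 1 (PP (pT A a) 0) = LOW_c A a *
      (MvPolynomial.C (a : A) * xP A a ^ (a - 1) * (xP A a - yP A a)) ∧
    MvPolynomial.pderiv 0 (PP (pT A a) 1) = LOW_c A a *
      (MvPolynomial.C (a : A) * yP A a ^ (a - 1) * (yP A a - xP A a)) ∧
    MvPolynomial.pderiv 1 (PP (pT A a) 1) = LOW_c A a *
      (yP A a ^ (a - 1) * (MvPolynomial.C ((a : A) ^ 2) * xP A a - yP A a)) := by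
  have hx : xP A a ^ a = xP A a ^ (a - 1) * xP A a := by
    rw [← pow_succ]
    congr 1
    omega
  have hy : yP A a ^ a = yP A a ^ (a - 1) * yP A a := by
    rw [← pow_succ]
    congr 1
    omega
  refine ⟨?_, ?_, ?_, ?_⟩
  · rw [LOW_dP0, LOW_dx0, LOW_dy0, hx, map_pow]
    ring
  · rw [LOW_dP0, LOW_dx1, LOW_dy1, hx]
    ring
  · rw [LOW_dP1, LOW_dx0, LOW_dy0, hy]
    ring
  · rw [LOW_dP1, LOW_dx1, LOW_dy1, hy, map_pow]
    ring

theorem LOW_jac (a : ℕ) (ha : 2 ≤ a) : Jac (pT A a) = den A a := by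
  obtain ⟨h1, h2, h3, h4⟩ := LOW_four (A := A) a ha
  have hc := LOW_cm (A := A) a ha
  rw [Jac, h1, h2, h3, h4, den, map_pow]
  have hxy : (xP A a * yP A a) ^ a =
      xP A a ^ (a - 1) * yP A a ^ (a - 1) * (xP A a * yP A a) := by
    rw [← mul_pow, ← pow_succ]
    congr 1
    omega
  rw [hxy]
  generalize xP A a ^ (a - 1) = u
  generalize yP A a ^ (a - 1) = v
  generalize xP A a = x
  generalize yP A a = y
  generalize LOW_c A a = c at *
  generalize (MvPolynomial.C (a : A) : MvPolynomial (Fin 2) A) = α at *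
  linear_combination (u * v * x * y * (c * (α ^ 2 - 1) + 1)) * hc

end

theorem LOW : LOW_stmt := by
  intro A _ _ a ha
  refine ⟨?_, LOW_jac a ha, LOW_four a ha⟩
  intro i
  rw [pT]
  split_ifs
  · exact LOW_low0 a ha
  · exact LOW_low1 a ha

end Pool.Agent.LK
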